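import Pool.Agent.H480Z.SDP.Stab

set_option autoImplicit false

/-!
# Semidefinite extended formulations of stable set polytopes need size `2 ^ Ω(N)`

For every constant `C` there are graphs on `N` vertices of bounded degree such that every projected
spectrahedron which contains the stable set polytope and approximates the stability number of all
induced subgraphs within the factor `C` has order `2 ^ Ω(N)`.  No symmetry is assumed.

The proof lifts sum-of-squares degree to positive semidefinite rank through an index gadget of
constant size: the two conditional averages `A₊, A₋` of a family of positive semidefinite matrices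
are written as `(P + Q) ^ 2, (P - Q) ^ 2` with their square roots, and the Frobenius norm of the
Gram matrix of `P` and `s Q` grows only by a factor `1 + s ^ 2 / (2 √q)` per block.
-/

namespace Pool.Agent.Results.MP_8a52c3_lc.AStableSetSDP

open Pool.Agent.H480Z.SDP

theorem result (C : ℝ) : ∃ c : ℝ, 0 < c ∧ ∃ Δ N₀ : ℕ, ∀ N ≥ N₀, ∃ G : SimpleGraph (Fin N),
    (∀ v, (G.neighborSet v).ncard ≤ Δ) ∧
    ∀ (r : ℕ) (K : Set (Fin N → ℝ)), IsShadow r K →
      (∀ I : Finset (Fin N), G.IsIndepSet I → (fun v => if v ∈ I then (1 : ℝ) else 0) ∈ K) →
      (∀ W : Finset (Fin N), ∀ p ∈ K, ∃ I ⊆ W, G.IsIndepSet I ∧ ∑ v ∈ W, p v ≤ C * I.card) →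
      (2 : ℝ) ^ (c * N) ≤ r :=
  stab_main C

end Pool.Agent.Results.MP_8a52c3_lc.AStableSetSDP
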