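import Pool.Agent.H553Z.BH.Arith

/-!
# `NP` is not in fixed polynomial time with `j` nondeterministic queries and `n ^ δ` bits of advice

For all `k, l ≥ 1` and all `j` there are a language `L` in `NP` and `δ > 0` such that `L` is not
decided by any deterministic algorithm working in time `O(n ^ k)` per action, with `O(n ^ δ)` bits
of advice and at most `j` adaptive queries to an oracle that has certificates of length `O(n ^ l)`
checkable in time `O(m ^ k)`.
-/

namespace Pool.Agent.Results.MP_8a52c3_lc.ConstQueriesPolyAdvice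

open Pool.Agent.NPC Pool.Agent.H553Z.Hier Filter Asymptotics

/-- **Main theorem.** -/
theorem result (k l j : ℕ) (hk : 1 ≤ k) (hl : 1 ≤ l) :
    ∃ (L : Set (List Bool)) (δ : ℝ), InNP L ∧ 0 < δ ∧ ∀ s : ℕ → ℕ,
      (fun n : ℕ => (s n : ℝ)) =O[atTop] (fun n : ℕ => (n : ℝ) ^ δ) →
        ¬ ConstQueries k l j s L :=
  bh_real j hk hl

end Pool.Agent.Results.MP_8a52c3_lc.ConstQueriesPolyAdvice
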