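import Pool.Agent.H553Z.Hier.Final

/-!
# `NP` is not in fixed polynomial time with few queries to a fixed polynomial nondeterministic oracle

For all `k, l ≥ 1` there is a language `L` in `NP` such that, whenever `q(n) ^ (k * l) = o(log n)`,
`L` is not decided by a deterministic algorithm working in time `O(n ^ k)` per action, with `q(n)`
bits of advice and `O(n ^ k)` adaptive queries to an oracle that has certificates of length
`O(n ^ l)` checkable in time `O(m ^ k)`, all queries being taken from a table of strings indexed by
at most `q(n)` bits.  The choice `g = f` in `FewIndexed` gives the algorithms that ask at most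
`q(n)` adaptive queries (`Pool.Agent.H553Z.Hier.main_queries`).
-/

namespace Pool.Agent.Results.MP_8a52c3_lc.FewQueriesHierarchy

open Pool.Agent.NPC Pool.Agent.H553Z.Hier Filter Asymptotics

/-- **Main theorem.** -/
theorem result (k l : ℕ) (hk : 1 ≤ k) (hl : 1 ≤ l) :
    ∃ L : Set (List Bool), InNP L ∧ ∀ q : ℕ → ℕ,
      (fun n : ℕ => (q n : ℝ) ^ (k * l)) =o[atTop] (fun n : ℕ => Real.log n) →
        ¬ FewIndexed k l q L :=
  main hk hl

end Pool.Agent.Results.MP_8a52c3_lc.FewQueriesHierarchy
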